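import Pool.Agent.Helper88.D4.Stmts6

/-!
# Project D4 (MP_e1889a_ag): words in two derivations which span an involutive plane field
-/

set_option autoImplicit false

namespace Pool.Agent.Helper1.D4

open Module Pool.Agent.Helper37.SD Pool.Agent.Helper20.TS Pool.Agent.Helper88.D4

variable {K : Type} [Field K] [Algebra ℂ K]

/-- the operators of order less than `m`: the `K`-span of the words of length less than `m` -/
def WS (D : Fin 2 → Derivation ℂ K K) (m : ℕ) : Submodule K (K → K) :=
  Submodule.span K {P | ∃ w : List (Fin 2), w.length < m ∧ P = fun z => wd D w z}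

theorem ws_word (D : Fin 2 → Derivation ℂ K K) {w : List (Fin 2)} {m : ℕ} (h : w.length < m) :
    (fun z => wd D w z) ∈ WS D m :=
  Submodule.subset_span ⟨w, h, rfl⟩

theorem ws_mono (D : Fin 2 → Derivation ℂ K K) {m m' : ℕ} (h : m ≤ m') : WS D m ≤ WS D m' := by
  refine Submodule.span_mono ?_
  rintro P ⟨w, hw, rfl⟩
  exact ⟨w, hw.trans_le h, rfl⟩

theorem ws_letter (D : Fin 2 → Derivation ℂ K K) (i : Fin 2) {m : ℕ} {P : K → K}
    (hP : P ∈ WS D m) : (fun z => D i (P z)) ∈ WS D (m + 1) := by
  induction hP using Submodule.span_induction with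
  | mem P hP =>
    obtain ⟨w, hw, rfl⟩ := hP
    exact ws_word D (w := i :: w) (by simpa using hw)
  | zero =>
    have : (fun z : K => D i ((0 : K → K) z)) = 0 := by
      funext z
      simp
    rw [this]
    exact Submodule.zero_mem _
  | add P Q _ _ hP hQ =>
    have : (fun z : K => D i ((P + Q) z)) = (fun z => D i (P z)) + fun z => D i (Q z) := by
      funext z
      simp
    rw [this]
    exact Submodule.add_mem _ hP hQ
  | smul x P hP' hP =>
    have : (fun z : K => D i ((x • P) z)) = x • (fun z => D i (P z)) + D i x • P := by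
      funext z
      simp only [Pi.smul_apply, Pi.add_apply, smul_eq_mul, Derivation.leibniz]
      ring
    rw [this]
    exact Submodule.add_mem _ (Submodule.smul_mem _ _ hP)
      (Submodule.smul_mem _ _ (ws_mono D (Nat.le_succ m) hP'))

theorem ws_pair (D : Fin 2 → Derivation ℂ K K) (x y : K) {m : ℕ} {P : K → K}
    (hP : P ∈ WS D m) : (fun z => (x • D 0 + y • D 1 : Derivation ℂ K K) (P z)) ∈ WS D (m + 1) := by
  have : (fun z => (x • D 0 + y • D 1 : Derivation ℂ K K) (P z)) =
      x • (fun z => D 0 (P z)) + y • fun z => D 1 (P z) := by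
    funext z
    simp
  rw [this]
  exact Submodule.add_mem _ (Submodule.smul_mem _ _ (ws_letter D 0 hP))
    (Submodule.smul_mem _ _ (ws_letter D 1 hP))

theorem dd_succ_left (D : Fin 2 → Derivation ℂ K K) (i j : ℕ) (z : K) :
    dd D (i + 1) j z = D 0 (dd D i j z) := by
  unfold dd
  rw [Function.iterate_succ_apply']

theorem dd_zero_succ (D : Fin 2 → Derivation ℂ K K) (j : ℕ) (z : K) :
    dd D 0 (j + 1) z = D 1 (dd D 0 j z) := by
  unfold dd
  rw [Function.iterate_succ_apply']
  rfl

theorem dd_mem (D : Fin 2 → Derivation ℂ K K) (i j : ℕ) : (fun z => dd D i j z) ∈ WS D (i + j + 1) := by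
  induction i with
  | zero =>
    induction j with
    | zero => exact ws_word D (w := []) (by simp)
    | succ j ih =>
      have := ws_letter D 1 ih
      simp only [← dd_zero_succ] at this
      exact this
  | succ i ih =>
    have := ws_letter D 0 ih
    simp only [← dd_succ_left] at this
    have e : i + 1 + j + 1 = i + j + 1 + 1 := by ring
    rw [e]
    exact this

/-- moving one letter `D 1` through -/
theorem dd_move (D : Fin 2 → Derivation ℂ K K)
    (hD : ∃ x y : K, ⁅D 0, D 1⁆ = x • D 0 + y • D 1) (i j : ℕ) :
    ((fun z => D 1 (dd D i j z)) - fun z => dd D i (j + 1) z) ∈ WS D (i + j + 1) := by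
  obtain ⟨x, y, hxy⟩ := hD
  induction i with
  | zero =>
    have : ((fun z => D 1 (dd D 0 j z)) - fun z => dd D 0 (j + 1) z) = 0 := by
      funext z
      simp [dd_zero_succ]
    rw [this]
    exact Submodule.zero_mem _
  | succ i ih =>
    have h1 := ws_letter D 0 ih
    have h2 := ws_pair D x y (dd_mem D i j)
    have e : ((fun z => D 1 (dd D (i + 1) j z)) - fun z => dd D (i + 1) (j + 1) z) =
        (fun z => D 0 (((fun z => D 1 (dd D i j z)) - fun z => dd D i (j + 1) z) z)) -
          fun z => (x • D 0 + y • D 1 : Derivation ℂ K K) (dd D i j z) := by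
      funext z
      rw [← hxy]
      simp only [Pi.sub_apply, dd_succ_left, map_sub, Derivation.commutator_apply]
      ring
    have e2 : i + 1 + j + 1 = i + j + 1 + 1 := by ring
    rw [e, e2]
    exact Submodule.sub_mem _ h1 h2

/-- words are sorted modulo shorter words -/
theorem wd_sort (D : Fin 2 → Derivation ℂ K K)
    (hD : ∃ x y : K, ⁅D 0, D 1⁆ = x • D 0 + y • D 1) (w : List (Fin 2)) :
    ((fun z => wd D w z) - fun z => dd D (w.count 0) (w.count 1) z) ∈ WS D w.length := by
  induction w with
  | nil =>
    have : ((fun z => wd D [] z) - fun z => dd D (([] : List (Fin 2)).count 0)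
        (([] : List (Fin 2)).count 1) z) = 0 := by
      funext z
      simp [wd, dd]
    rw [this]
    exact Submodule.zero_mem _
  | cons i w ih =>
    have hlen : w.count 0 + w.count 1 = w.length := by
      clear ih
      induction w with
      | nil => rfl
      | cons k w ih =>
        rw [List.count_cons, List.count_cons, List.length_cons, ← ih]
        fin_cases k <;> simp <;> omega
    have h1 := ws_letter D i ih
    rw [List.length_cons]
    fin_cases i
    · have e : ((fun z => wd D (0 :: w) z) - fun z => dd D ((0 :: w).count 0) ((0 :: w).count 1) z) =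
          fun z => D 0 (((fun z => wd D w z) - fun z => dd D (w.count 0) (w.count 1) z) z) := by
        funext z
        simp only [Pi.sub_apply, map_sub]
        rw [List.count_cons_self, dd_succ_left]
        rw [List.count_cons_of_ne (by decide)]
        rfl
      exact e ▸ h1
    · have h2 := dd_move D hD (w.count 0) (w.count 1)
      rw [hlen] at h2
      have e : ((fun z => wd D (1 :: w) z) - fun z => dd D ((1 :: w).count 0) ((1 :: w).count 1) z) =
          (fun z => D 1 (((fun z => wd D w z) - fun z => dd D (w.count 0) (w.count 1) z) z)) +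
            ((fun z => D 1 (dd D (w.count 0) (w.count 1) z)) -
              fun z => dd D (w.count 0) (w.count 1 + 1) z) := by
        funext z
        simp only [Pi.sub_apply, Pi.add_apply, map_sub]
        rw [List.count_cons_self, List.count_cons_of_ne (by decide)]
        have : wd D (1 :: w) z = D 1 (wd D w z) := rfl
        rw [this]
        ring
      exact e ▸ Submodule.add_mem _ h1 h2

/-- the binomial identity -/
theorem binom_sum {M : Type*} [AddCommGroup M] [Module K M] (x y : K) (m : ℕ) (g : ℕ → M) :
    ∑ i ∈ Finset.range (m + 1), ((x * ((m.choose i : K) * x ^ i * y ^ (m - i))) • g (i + 1) +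
      (y * ((m.choose i : K) * x ^ i * y ^ (m - i))) • g i) =
    ∑ i ∈ Finset.range (m + 2), ((((m + 1).choose i : K) * x ^ i * y ^ (m + 1 - i))) • g i := by
  rw [Finset.sum_add_distrib, Finset.sum_range_succ' _ (m + 1)]
  have h1 : ∀ i ∈ Finset.range (m + 1),
      ((((m + 1).choose (i + 1) : K) * x ^ (i + 1) * y ^ (m + 1 - (i + 1)))) • g (i + 1) =
      (x * ((m.choose i : K) * x ^ i * y ^ (m - i))) • g (i + 1) +
        ((m.choose (i + 1) : K) * x ^ (i + 1) * y ^ (m - i)) • g (i + 1) := by
    intro i _
    rw [← add_smul, Nat.choose_succ_succ, Nat.add_sub_add_right]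
    congr 1
    push_cast
    ring
  rw [Finset.sum_congr rfl h1, Finset.sum_add_distrib, add_assoc]
  congr 1
  rw [Finset.sum_range_succ (fun i => ((m.choose (i + 1) : K) * x ^ (i + 1) * y ^ (m - i)) • g (i + 1)),
    Nat.choose_succ_self, Finset.sum_range_succ' _ m]
  have h2 : ∀ i ∈ Finset.range m,
      (y * ((m.choose (i + 1) : K) * x ^ (i + 1) * y ^ (m - (i + 1)))) • g (i + 1) =
      ((m.choose (i + 1) : K) * x ^ (i + 1) * y ^ (m - i)) • g (i + 1) := by
    intro i hi
    have h3 : m - i = m - (i + 1) + 1 := by
      have := Finset.mem_range.1 hi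
      omega
    rw [h3, pow_succ]
    congr 1
    ring
  rw [Finset.sum_congr rfl h2]
  simp
  ring_nf

/-- powers of a vector of the plane modulo shorter words -/
theorem pow_sort (D : Fin 2 → Derivation ℂ K K)
    (hD : ∃ x y : K, ⁅D 0, D 1⁆ = x • D 0 + y • D 1) (x y : K) (m : ℕ) :
    ((fun z => ((x • D 0 + y • D 1 : Derivation ℂ K K) : K → K)^[m] z) -
      ∑ i ∈ Finset.range (m + 1), ((m.choose i : K) * x ^ i * y ^ (m - i)) •
        fun z => dd D i (m - i) z) ∈ WS D m := by
  induction m with
  | zero =>
    have : ((fun z => ((x • D 0 + y • D 1 : Derivation ℂ K K) : K → K)^[0] z) -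
      ∑ i ∈ Finset.range (0 + 1), ((Nat.choose 0 i : K) * x ^ i * y ^ (0 - i)) •
        fun z => dd D i (0 - i) z) = 0 := by
      funext z
      simp [dd]
    rw [this]
    exact Submodule.zero_mem _
  | succ m ih =>
    have h1 := ws_pair D x y ih
    have hB := binom_sum x y m (fun i => (fun z => dd D i (m + 1 - i) z : K → K))
    set c : ℕ → K := fun i => (m.choose i : K) * x ^ i * y ^ (m - i) with hc
    -- the corrections
    have h2 : ∑ i ∈ Finset.range (m + 1), (((x • D 0 + y • D 1 : Derivation ℂ K K) (c i)) •
        (fun z => dd D i (m - i) z) + (y * c i) • ((fun z => D 1 (dd D i (m - i) z)) -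
          fun z => dd D i (m - i + 1) z)) ∈ WS D (m + 1) := by
      refine Submodule.sum_mem _ fun i hi => ?_
      have hi' : i + (m - i) + 1 = m + 1 := by
        have := Finset.mem_range.1 hi
        omega
      have h3 := dd_mem D i (m - i)
      have h4 := dd_move D hD i (m - i)
      rw [hi'] at h3 h4
      exact Submodule.add_mem _ (Submodule.smul_mem _ _ h3) (Submodule.smul_mem _ _ h4)
    have e : ((fun z => ((x • D 0 + y • D 1 : Derivation ℂ K K) : K → K)^[m + 1] z) -
        ∑ i ∈ Finset.range (m + 1 + 1), (((m + 1).choose i : K) * x ^ i * y ^ (m + 1 - i)) •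
          fun z => dd D i (m + 1 - i) z) =
        (fun z => (x • D 0 + y • D 1 : Derivation ℂ K K)
          (((fun z => ((x • D 0 + y • D 1 : Derivation ℂ K K) : K → K)^[m] z) -
            ∑ i ∈ Finset.range (m + 1), c i • fun z => dd D i (m - i) z) z)) +
        ∑ i ∈ Finset.range (m + 1), (((x • D 0 + y • D 1 : Derivation ℂ K K) (c i)) •
          (fun z => dd D i (m - i) z) + (y * c i) • ((fun z => D 1 (dd D i (m - i) z)) -
            fun z => dd D i (m - i + 1) z)) := by
      have h5 : m + 1 + 1 = m + 2 := rfl
      rw [h5, ← hB]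
      funext z
      simp only [Pi.sub_apply, Pi.add_apply, Finset.sum_apply, Pi.smul_apply, smul_eq_mul,
        Function.iterate_succ_apply', map_sub, map_sum, Derivation.leibniz]
      rw [sub_add, sub_right_inj, ← Finset.sum_sub_distrib]
      refine Finset.sum_congr rfl fun i hi => ?_
      have hi' : m + 1 - i = m - i + 1 := by
        have := Finset.mem_range.1 hi
        omega
      rw [hi', Nat.add_sub_add_right, dd_succ_left]
      simp only [Derivation.add_apply, Derivation.smul_apply, smul_eq_mul]
      ring
    rw [e]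
    exact Submodule.add_mem _ h1 h2

/-- the functional `P ↦ ∑ A l * P (B l)` -/
def TF {n : ℕ} (A B : Fin n → K) : (K → K) →ₗ[K] K where
  toFun P := ∑ l, A l * P (B l)
  map_add' P Q := by
    rw [← Finset.sum_add_distrib]
    exact Finset.sum_congr rfl fun l _ => by rw [Pi.add_apply, mul_add]
  map_smul' x P := by
    rw [RingHom.id_apply, smul_eq_mul, Finset.mul_sum]
    exact Finset.sum_congr rfl fun l _ => by rw [Pi.smul_apply, smul_eq_mul]; ring

theorem s_J1 : S_J1 := by
  intro K _ _ D hD n A B q hq
  have hT : ∀ P : K → K, TF A B P = ∑ l, A l * P (B l) := fun _ => rfl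
  have hcount : ∀ w : List (Fin 2), w.count 0 + w.count 1 = w.length := by
    intro w
    induction w with
    | nil => rfl
    | cons k w ih =>
      rw [List.count_cons, List.count_cons, List.length_cons, ← ih]
      fin_cases k <;> simp <;> omega
  -- the functional vanishes on the operators of order less than `q`
  have hvan : ∀ m ≤ q, ∀ P ∈ WS D m, TF A B P = 0 := by
    intro m
    induction m with
    | zero =>
      intro _ P hP
      have : WS D 0 = ⊥ := by
        unfold WS
        rw [Submodule.span_eq_bot]
        rintro P ⟨w, hw, -⟩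
        exact absurd hw (Nat.not_lt_zero _)
      rw [this, Submodule.mem_bot] at hP
      rw [hP, map_zero]
    | succ m ih =>
      intro hm P hP
      have ih' := ih (by omega)
      have hle : WS D (m + 1) ≤ LinearMap.ker (TF A B) := by
        unfold WS
        rw [Submodule.span_le]
        rintro P ⟨w, hw, rfl⟩
        rw [SetLike.mem_coe, LinearMap.mem_ker]
        rcases Nat.lt_succ_iff_lt_or_eq.1 hw with h | h
        · exact ih' _ (ws_word D h)
        · have h1 := ih' _ (h ▸ wd_sort D hD w)
          rw [map_sub, sub_eq_zero] at h1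
          rw [h1, hT]
          exact hq _ _ (by rw [hcount w]; omega)
      exact hle hP
  refine ⟨fun w hw => ?_, fun w hw => ?_, fun x y => ?_⟩
  · exact hvan q le_rfl _ (ws_word D hw)
  · have h1 := hvan q le_rfl _ (hw ▸ wd_sort D hD w)
    rw [map_sub, sub_eq_zero] at h1
    exact h1
  · have h1 := hvan q le_rfl _ (pow_sort D hD x y q)
    rw [map_sub, sub_eq_zero, map_sum] at h1
    rw [← hT (fun z => ((x • D 0 + y • D 1 : Derivation ℂ K K) : K → K)^[q] z), h1]
    refine Finset.sum_congr rfl fun i _ => ?_
    rw [map_smul, smul_eq_mul, hT]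
    ring

end Pool.Agent.Helper1.D4
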