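import Pool.Agent.Helper88.D4.Stmts6
import Pool.Agent.Helper88.D4.CM
import Pool.Agent.Helper48.D4.Cnt
import Pool.Agent.Helper13.D4.Wr

/-!
# Project D4 (MP_e1889a_ag): a first integral of degree `0`
-/

set_option autoImplicit false

namespace Pool.Agent.Helper1.D4

open Module Pool.Agent.Helper37.SD Pool.Agent.Helper20.TS Pool.Agent.Helper88.D4

theorem s_KH (hWRT : S_WRT) : S_KH := by
  intro K _ _ R ξ J v a V H c hC hM hT Z κ x N b ζ hHZ hcomp hx hζ hβ
  by_contra hcon
  push Not at hcon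
  set β : ℝ := -(b / N + ζ) with hβd
  obtain ⟨m, hm1, hm2, hm3⟩ := Helper48.D4.s_CNT K R ξ J v a V 1 H c hC hM.toMin hT
    le_rfl (by norm_num) (2 / β + 1)
  set w : ℝ := ∑ i, c i * m i with hw
  haveI := hm3
  have hf : ∀ j, ((finBasis ℂ (Wsp R H m) j : Wsp R H m) : K) ∈ R ∧
      IsW H m ((finBasis ℂ (Wsp R H m) j : Wsp R H m) : K) :=
    fun j => (finBasis ℂ (Wsp R H m) j).2
  have hli : LinearIndependent ℂ
      (fun j => ((finBasis ℂ (Wsp R H m) j : Wsp R H m) : K)) :=
    (finBasis ℂ (Wsp R H m)).linearIndependent.map' (Wsp R H m).subtype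
      (Submodule.ker_subtype _)
  have hξ : ∀ y : K, IsW H m y → ξ y = (w : ℂ) • y := by
    intro y hy
    rw [hT.xi, Fin.sum_univ_one, Derivation.smul_apply, hy 0, smul_smul, hw, Fin.sum_univ_one]
    push_cast
    rfl
  have hZ : ∀ (m : Fin 1 → ℤ) (φ : K), IsW H m φ → IsW H (m + fun _ => κ) (Z φ) := by
    intro m φ hφ i
    have hi : i = 0 := Subsingleton.elim _ _
    rw [hi]
    have h1 := congrArg (fun D : Derivation ℂ K K => D φ) hHZ
    simp only [Derivation.commutator_apply, Derivation.smul_apply] at h1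
    rw [hφ 0, Derivation.map_smul] at h1
    rw [sub_eq_iff_eq_add] at h1
    rw [h1, Pi.add_apply, ← add_smul]
    push_cast
    rw [add_comm]
  have hwr := Helper13.D4.s_WN K 1 H Z (fun _ => κ) hZ hcon _
    (fun j => ((finBasis ℂ (Wsp R H m) j : Wsp R H m) : K)) m (fun j => (hf j).2) hli
  have h := hWRT K R ξ hC.toIsCone hC.normal Z x N b ζ hcomp hx hζ _
    (fun j => ((finBasis ℂ (Wsp R H m) j : Wsp R H m) : K)) w (fun j => (hf j).1)
    (fun j => hξ _ (hf j).2) hwr
  rw [← hβd] at h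
  set n : ℝ := (finrank ℂ (Wsp R H m) : ℝ) with hn
  have e2 : (3 - 1 : ℕ) = 2 := rfl
  rw [e2] at hm2
  have h1 : 0 < 2 / β := by positivity
  have h2 : 0 < n := lt_of_le_of_lt (by positivity) hm2
  have h3 : β * (n - 1) / 2 ≤ w := by
    by_contra h4
    push Not at h4
    have := mul_lt_mul_of_pos_left h4 h2
    nlinarith
  have h5 : n ≤ 2 / β * w + 1 := by
    have h6 : 2 / β * (β * (n - 1) / 2) = n - 1 := by
      field_simp
    have h7 := mul_le_mul_of_nonneg_left h3 h1.le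
    rw [h6] at h7
    linarith
  have h8 : (2 / β + 1) * (w + 1) ≤ (2 / β + 1) * (w + 1) ^ 2 := by
    refine mul_le_mul_of_nonneg_left ?_ (by positivity)
    nlinarith
  nlinarith

end Pool.Agent.Helper1.D4
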