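import Pool.Agent.Helper88.D4.Stmts4
import Pool.Agent.Helper8.D4.T2

/-!
# Project D4 (MP_e1889a_ag): from closed 2-forms of degree 0 to integrable 1-forms
-/

set_option autoImplicit false

namespace Pool.Agent.Helper1.D4

open Module Pool.Agent.Helper37.SD Pool.Agent.Helper20.TS Pool.Agent.Helper88.D4
  Pool.Agent.Helper8.D4

variable {K : Type} [Field K] [Algebra ℂ K]

theorem pres_H {r : ℕ} {R : Subalgebra ℂ K} {ξ : Derivation ℂ K K} {H : Fin r → Derivation ℂ K K}
    {c : Fin r → ℝ} (hT : Tor R ξ H c) (i : Fin r) : Pres R (H i) := by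
  intro x hx
  have h1 : Submodule.span ℂ {y | y ∈ R ∧ ∃ m : Fin r → ℤ, IsW H m y} ≤
      (Subalgebra.toSubmodule R).comap ((H i : Derivation ℂ K K) : K →ₗ[ℂ] K) := by
    rw [Submodule.span_le]
    rintro y ⟨hy, m, hm⟩
    change H i y ∈ R
    rw [hm i]
    exact R.smul_mem hy _
  exact h1 (hT.span x hx)

theorem s_T2s (hPF : S_PF) : S_T2s := by
  intro K _ _ R ξ J a r H c hC hT ω χ hreg hcl hne hω hχ hk ha
  have hcone : IsCone R ξ := hC.toIsCone
  have hsw := form_swap hreg.alt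
  have hξk : HomForm ξ 0 ω := by
    have h1 := homForm_xi hT.xi hω
    rwa [hk] at h1
  obtain ⟨j, hj⟩ : ∃ j, χ j ≠ 0 := by
    by_contra h1
    push Not at h1
    exact hχ (funext h1)
  have hj0 : ((χ j : ℤ) : ℂ) ≠ 0 := by exact_mod_cast hj
  -- Cartan
  have hcar : ∀ B C : Derivation ℂ K K, dOne (ω (H j)) B C = ((χ j : ℤ) : ℂ) • ω B C := by
    intro B C
    have h1 := hcl (H j) B C
    have h2 := hω j B C
    have h3 := hsw ⁅H j, C⁆ B
    have h4 := hsw ⁅B, C⁆ (H j)
    have h5 : ((χ j : ℤ) : ℂ) • ω B C = (((χ j : ℝ)) : ℂ) • ω B C := by norm_cast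
    unfold dOne
    rw [h5, ← h2]
    linear_combination (-1 : K) * h1 + h3 - h4
  -- the square is zero
  have hpf : ∀ D, pf ω D = 0 := by
    obtain ⟨q, hqR, hq, hqd⟩ := hPF K R ξ J a hC ω hreg
    have h1 := hqd 0 hξk
    have hq0 : q = 0 := by
      by_contra h2
      have h3 := hcone.eig_nonneg hqR h2 h1
      linarith
    intro D
    obtain ⟨x, y, z, w, hx⟩ := hC.alt.ne
    have h2 := hq D ![x, y, z, w]
    rw [hq0, zero_mul] at h2
    have h3 : brk J ![x, y, z, w] ≠ 0 := hx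
    exact (mul_eq_zero.1 h2.symm).resolve_left h3
  have hxi : ∀ i, ⁅H i, ξ⁆ = 0 := fun i => by
    rw [hT.xi, lie_sum]
    refine Finset.sum_eq_zero fun j _ => ?_
    rw [lie_smul, hT.comm, smul_zero]
  have hxi' : ∀ i, ⁅ξ, H i⁆ = 0 := fun i => by rw [← lie_skew, hxi, neg_zero]
  have hwt : ∀ i D, H i (ω (H j) D) - ω (H j) ⁅H i, D⁆ = ((χ i : ℤ) : ℂ) • ω (H j) D := by
    intro i D
    have h1 := hω i (H j) D
    rw [hT.comm, map_zero, LinearMap.zero_apply, sub_zero] at h1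
    rw [h1]
    norm_cast
  -- the values on the torus
  have hv : ∀ D : Derivation ℂ K K, Pres R D → ⁅ξ, D⁆ = 0 → ⁅H j, D⁆ = 0 → ω (H j) D = 0 := by
    intro D hD h1 h2
    have hR : ω (H j) D ∈ R := hreg.reg _ _ (pres_H hT j) hD
    have h3 := hξk (H j) D
    rw [hxi', h1, map_zero, map_zero, LinearMap.zero_apply, sub_zero, sub_zero] at h3
    have h4 : ξ (ω (H j) D) = 0 := by rw [h3]; simp
    obtain ⟨z, hz⟩ := hcone.const _ hR h4
    have h5 := hwt j D
    rw [h2, map_zero, sub_zero, hz, Derivation.map_algebraMap] at h5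
    rw [hz]
    exact (smul_eq_zero.1 h5.symm).resolve_left hj0
  refine ⟨ω (H j), ⟨?_, ?_, hwt, hv ξ hcone.pres (lie_self ξ) (hxi j), ?_⟩,
    fun i => hv (H i) (pres_H hT i) (hxi' i) (hT.comm j i)⟩
  · intro h0
    apply hne
    refine LinearMap.ext fun B => LinearMap.ext fun C => ?_
    have h1 := hcar B C
    have h2 : dOne (ω (H j)) B C = 0 := by
      unfold dOne
      rw [h0]
      simp
    rw [h2] at h1
    exact (smul_eq_zero.1 h1.symm).resolve_left hj0
  · intro D hD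
    exact hreg.reg (H j) D (pres_H hT j) hD
  · intro A B C
    have h1 := hpf ![H j, A, B, C]
    have h2 : ω (H j) A * ω B C - ω (H j) B * ω A C + ω (H j) C * ω A B = 0 := h1
    rw [hcar, hcar, hcar]
    simp only [Algebra.smul_def]
    linear_combination (algebraMap ℂ K ((χ j : ℤ) : ℂ)) * h2

end Pool.Agent.Helper1.D4
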