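import Pool.Agent.Helper88.D4.Stmts5
import Pool.Agent.Helper1.D4.T2s

/-!
# Project D4 (MP_e1889a_ag): from invariant closed 2-forms to invariant closed 1-forms
-/

set_option autoImplicit false

namespace Pool.Agent.Helper1.D4

open Module Pool.Agent.Helper37.SD Pool.Agent.Helper20.TS Pool.Agent.Helper88.D4
  Pool.Agent.Helper8.D4

variable {K : Type} [Field K] [Algebra ℂ K]

theorem s_T2z (hTR : S_TR) : S_T2z := by
  intro K _ _ R ξ J a r H c hC hT ω hreg hcl hω
  by_cases h0 : ∀ i D, ω (H i) D = 0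
  · exact Or.inl h0
  refine Or.inr ?_
  push Not at h0
  obtain ⟨j, D₀, hj⟩ := h0
  have hsw := form_swap hreg.alt
  have hω0 : ∀ i (B C : Derivation ℂ K K), H i (ω B C) - ω ⁅H i, B⁆ C - ω B ⁅H i, C⁆ = 0 := by
    intro i B C
    rw [hω i B C]
    simp
  -- Cartan
  have hcar : ∀ B C : Derivation ℂ K K, dOne (ω (H j)) B C = 0 := by
    intro B C
    have h1 := hcl (H j) B C
    have h2 := hω0 j B C
    have h3 := hsw ⁅H j, C⁆ B
    have h4 := hsw ⁅B, C⁆ (H j)
    unfold dOne
    linear_combination (-1 : K) * h1 + h3 - h4 + h2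
  have hwt : ∀ i D, H i (ω (H j) D) = ω (H j) ⁅H i, D⁆ := by
    intro i D
    have h1 := hω0 i (H j) D
    rw [hT.comm, map_zero, LinearMap.zero_apply, sub_zero] at h1
    exact sub_eq_zero.1 h1
  have hreg1 : Reg1 R (ω (H j)) := fun D hD => hreg.reg (H j) D (pres_H hT j) hD
  have hcst : ∀ i, Cst (ω (H j) (H i)) := by
    intro i
    have hR : ω (H j) (H i) ∈ R := hreg.reg _ _ (pres_H hT j) (pres_H hT i)
    have hD : ∀ D : Derivation ℂ K K, D (ω (H j) (H i)) = 0 := by
      intro D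
      have h1 := hcar (H i) D
      unfold dOne at h1
      rw [hwt i D] at h1
      linear_combination (-1 : K) * h1
    exact hC.toIsCone.const _ hR (hD ξ)
  have hz := hTR K R ξ J a r H c hC hT (ω (H j)) hreg1 hwt hcst
  refine ⟨ω (H j), ⟨?_, hreg1, ?_, ?_, ?_⟩, hz⟩
  · intro h
    apply hj
    rw [h]
    rfl
  · intro i D
    rw [hwt i D, sub_self]
    simp
  · rw [hT.xi, map_sum]
    refine Finset.sum_eq_zero fun i _ => ?_
    rw [← algebraMap_smul K, map_smul, hz i, smul_zero]
  · intro A B C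
    rw [hcar, hcar, hcar]
    ring

end Pool.Agent.Helper1.D4
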